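import Mathlib

set_option autoImplicit false

namespace Pool.Agent.Results.MP_35e3b8_an.Quasi

open CircleDeg1Lift NNReal

abbrev G := CircleDeg1Liftˣ

noncomputable def ph (g : G) : ℝ := translationNumber (g : CircleDeg1Lift)

lemma ph_inv (g : G) : ph g⁻¹ = -ph g := translationNumber_units_inv g

lemma ph_mul (g h : G) : |ph (g * h) - ph g - ph h| ≤ 4 := by
  have a := dist_map_zero_translationNumber_le (g : CircleDeg1Lift)
  have b := dist_map_zero_translationNumber_le (h : CircleDeg1Lift)
  have c := dist_map_zero_translationNumber_le ((g * h : G) : CircleDeg1Lift)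
  have d := dist_map_map_zero_lt (g : CircleDeg1Lift) h
  rw [Units.val_mul, mul_apply] at c
  rw [Real.dist_eq, abs_le] at a b c
  rw [Real.dist_eq, abs_lt] at d
  unfold ph
  rw [Units.val_mul, abs_le]
  constructor <;> linarith [a.1, a.2, b.1, b.2, c.1, c.2, d.1, d.2]

abbrev M : Type := G

open Classical in
noncomputable instance : MetricSpace M where
  dist x y := if x = y then 0 else |ph (x⁻¹ * y)| + 160
  dist_self x := by simp
  dist_comm x y := by
    have : ph (y⁻¹ * x) = -ph (x⁻¹ * y) := by rw [← ph_inv]; simp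
    by_cases h : x = y
    · simp [h]
    · rw [if_neg h, if_neg (Ne.symm h), this, abs_neg]
  dist_triangle x y z := by
    by_cases h1 : x = y
    · subst h1; simp
    by_cases h2 : y = z
    · subst h2; simp
    have := ph_mul (x⁻¹ * y) (y⁻¹ * z)
    rw [mul_assoc, mul_inv_cancel_left] at this
    have a := abs_nonneg (ph (x⁻¹ * y))
    have b := abs_nonneg (ph (y⁻¹ * z))
    have c := abs_sub_abs_le_abs_sub (ph (x⁻¹ * z)) (ph (x⁻¹ * y) + ph (y⁻¹ * z))
    have d := abs_add_le (ph (x⁻¹ * y)) (ph (y⁻¹ * z))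
    rw [← sub_sub] at c
    rw [if_neg h1, if_neg h2]
    split_ifs <;> linarith
  eq_of_dist_eq_zero {x y} h := by
    by_contra hc
    rw [if_neg hc] at h
    linarith [abs_nonneg (ph (x⁻¹ * y))]

open Classical in
lemma dist_def (x y : M) : dist x y = if x = y then 0 else |ph (x⁻¹ * y)| + 160 := rfl

lemma dist_le (x : M) : dist 1 x ≤ |ph x| + 160 := by
  rw [dist_def]
  split_ifs
  · positivity
  · simp

instance : IsIsometricSMul M M where
  isometry_smul g := Isometry.of_dist_eq fun x y => by
    rw [dist_def, dist_def, smul_eq_mul, smul_eq_mul, mul_inv_rev, mul_assoc, inv_mul_cancel_left]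
    by_cases h : x = y
    · rw [if_pos h, if_pos (by rw [h])]
    · rw [if_neg h, if_neg fun e => h (mul_left_cancel e)]

lemma inc (x y : M) : |ph y - ph x - ph (x⁻¹ * y)| ≤ 4 := by
  simpa using ph_mul x (x⁻¹ * y)

noncomputable def R (t : ℝ) : M := CircleDeg1Lift.translate (Multiplicative.ofAdd t)

lemma ph_R (t : ℝ) : ph (R t) = t := translationNumber_translate t

lemma exists_h : ∃ h : G, h 0 = 0 ∧ h (1 / 4) = 1 / 3 := by
  have hp := Real.pi_pos
  have hp4 := Real.pi_le_four
  have hs : StrictMono fun x : ℝ => x + Real.sin (2 * Real.pi * x) / 12 := by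
    intro x y hxy
    have := Real.abs_sin_sub_sin_le (2 * Real.pi * x) (2 * Real.pi * y)
    rw [← mul_sub, abs_mul, abs_of_pos (by positivity : 0 < 2 * Real.pi),
      abs_of_neg (sub_neg.2 hxy), abs_le] at this
    have h2 := mul_le_mul_of_nonneg_right hp4 (sub_pos.2 hxy).le
    simp only
    linarith [this.2]
  let f : CircleDeg1Lift := ⟨⟨_, hs.monotone⟩, fun x => by
    change x + 1 + Real.sin (2 * Real.pi * (x + 1)) / 12 = x + Real.sin (2 * Real.pi * x) / 12 + 1
    rw [mul_add, mul_one, Real.sin_add_two_pi]; ring⟩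
  obtain ⟨h, hh⟩ : IsUnit f := isUnit_iff_bijective.2 ⟨hs.injective,
    (continuous_iff_surjective f).1 (by
      change Continuous fun x : ℝ => x + Real.sin (2 * Real.pi * x) / 12
      fun_prop)⟩
  refine ⟨h, ?_, ?_⟩ <;> rw [hh]
  · change (0 : ℝ) + Real.sin (2 * Real.pi * 0) / 12 = 0
    simp
  · change (1 / 4 : ℝ) + Real.sin (2 * Real.pi * (1 / 4)) / 12 = 1 / 3
    rw [show 2 * Real.pi * (1 / 4) = Real.pi / 2 by ring, Real.sin_pi_div_two]; norm_num

/-- A 1/20-invariant function of Lipschitz norm one at distance more than 1/2 from every invariant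
function. -/
theorem result : ∃ (d : ℝ≥0) (M : Type) (_ : MetricSpace M) (o : M) (G : Type) (_ : Group G)
    (_ : MulAction G M) (_ : IsIsometricSMul G M) (f : M → ℝ),
    0 < d ∧ f o = 0 ∧ LipschitzWith 1 f ∧ (∀ K, LipschitzWith K f → 1 ≤ K) ∧
    (∀ g : G, LipschitzWith (d / 10) fun x => (f (g⁻¹ • x) - f (g⁻¹ • o)) - f x) ∧
    ∀ F : M → ℝ, F o = 0 → (∀ (g : G) (x : M), F (g⁻¹ • x) - F (g⁻¹ • o) = F x) →
      ¬ LipschitzWith d fun x => f x - F x := by
  have p1 : ph (1 : M) = 0 := translationNumber_one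
  refine ⟨1 / 2, M, inferInstance, 1, M, inferInstance, inferInstance, inferInstance, ph,
    by norm_num, p1, ?_, fun K hK => ?_, fun g => ?_, fun F h1 hF hL => ?_⟩
  · refine LipschitzWith.of_dist_le_mul fun x y => ?_
    by_cases h : x = y
    · simp [h]
    have := inc x y
    rw [dist_def, if_neg h, Real.dist_eq, abs_sub_comm]
    have := abs_sub_abs_le_abs_sub (ph y - ph x) (ph (x⁻¹ * y))
    push_cast; linarith
  · by_contra hc
    have hc : (K : ℝ) < 1 := by exact_mod_cast not_le.1 hc
    set t : ℝ := 160 / (1 - K) with ht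
    have ht0 : 0 < t := by apply div_pos <;> linarith
    have h1 := hK.dist_le_mul 1 (R t)
    have h2 := dist_le (R t)
    rw [p1, Real.dist_eq, ph_R, zero_sub, abs_neg, abs_of_pos ht0] at h1
    rw [ph_R, abs_of_pos ht0] at h2
    have h3 : t * (1 - K) = 160 := div_mul_cancel₀ _ (by linarith)
    have := mul_le_mul_of_nonneg_left h2 K.2
    change (K : ℝ) * _ ≤ (K : ℝ) * _ at this
    nlinarith
  · refine LipschitzWith.of_dist_le_mul fun x y => ?_
    by_cases h : x = y
    · simp [h]
    have a := inc x y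
    have b := inc (g⁻¹ * x) (g⁻¹ * y)
    rw [mul_inv_rev, mul_assoc, inv_mul_cancel_left] at b
    rw [dist_def, if_neg h, Real.dist_eq]
    simp only [smul_eq_mul]
    rw [abs_le] at a b ⊢
    have := abs_nonneg (ph (x⁻¹ * y))
    push_cast
    constructor <;> linarith [a.1, a.2, b.1, b.2]
  · have hm : ∀ g x, F (g * x) = F g + F x := fun g x => by
      have := hF g⁻¹ x
      simp only [inv_inv, smul_eq_mul, mul_one] at this
      linarith
    have hpow : ∀ g (n : ℕ), F (g ^ n) = n * F g := fun g n => by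
      induction n with
      | zero => simpa using h1
      | succ n ih => rw [pow_succ, hm, ih]; push_cast; ring
    have hb : ∀ x, |ph x - F x| ≤ (|ph x| + 160) / 2 := fun x => by
      have a := hL.dist_le_mul 1 x
      have b := dist_le x
      rw [p1, h1, Real.dist_eq, sub_zero, zero_sub, abs_neg] at a
      push_cast at a; linarith
    obtain ⟨h, h0, h4⟩ := exists_h
    set g : M := R (-(1 / 3)) * (h * (R (1 / 4) * h⁻¹)) with hg
    have g0 : ph g = 0 := by
      have : (h⁻¹ : G) 0 = 0 := by
        conv_lhs => rw [← h0]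
        exact units_inv_apply_apply h 0
      refine (translationNumber_of_eq_add_int (x := 0) (m := 0) _ ?_).trans (by simp)
      change -(1 / 3) + h (1 / 4 + (h⁻¹ : G) 0) = _
      rw [this, add_zero, h4]; simp
    have Fg : F g = 0 := by
      by_contra hc
      obtain ⟨n, hn⟩ := exists_nat_gt (80 / |F g|)
      have a := hb (g ^ n)
      have : ph (g ^ n) = n * ph g := by
        unfold ph
        rw [← translationNumber_pow]; rfl
      rw [this, g0, hpow, mul_zero, zero_sub, abs_neg, abs_mul, abs_zero, Nat.abs_cast] at a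
      rw [div_lt_iff₀ (abs_pos.2 hc)] at hn
      linarith
    have hinv : F h + F h⁻¹ = 0 := by rw [← hm, mul_inv_cancel, h1]
    have hR : ∀ s t, R (s + t) = R s * R t := fun s t => map_mul CircleDeg1Lift.translate (Multiplicative.ofAdd s) (Multiplicative.ofAdd t)
    have F12 : F (R (-(1 / 3) + 1 / 4)) = 0 := by
      rw [hg, hm, hm, hm] at Fg
      rw [hR, hm]; linarith
    have a := hb (R (-(1 / 3) + 1 / 4) ^ 2400)
    have : ph (R (-(1 / 3) + 1 / 4) ^ 2400) = (2400 : ℕ) * ph (R (-(1 / 3) + 1 / 4)) := by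
      unfold ph
      rw [← translationNumber_pow]; rfl
    rw [hpow, F12, this, ph_R] at a
    norm_num [abs_of_neg] at a

end Pool.Agent.Results.MP_35e3b8_an.Quasi
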